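import Pool.Agent.helper23.CO.Spec

/-!
# Project co (MP_7c3fb3_pr), module GHS (adapted from CWM/G4.lean of helper18)
-/

open Finset Filter Topology

namespace CO

open CWM (HH)

/-- four spins -/
abbrev GHS_B : Type := Bool × Bool × Bool × Bool

/-- the four rotated spins -/
noncomputable def GHS_e (i : Fin 4) (b : GHS_B) : ℝ :=
  if i = 0 then (CU.sg b.1 + CU.sg b.2.1 + CU.sg b.2.2.1 + CU.sg b.2.2.2) / 2 else
  if i = 1 then -(CU.sg b.1 + CU.sg b.2.1 - CU.sg b.2.2.1 - CU.sg b.2.2.2) / 2 else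
  if i = 2 then (CU.sg b.1 - CU.sg b.2.1 + CU.sg b.2.2.1 - CU.sg b.2.2.2) / 2 else
  (CU.sg b.1 - CU.sg b.2.1 - CU.sg b.2.2.1 + CU.sg b.2.2.2) / 2

lemma GHS_e0 (b : GHS_B) : GHS_e 0 b = (CU.sg b.1 + CU.sg b.2.1 + CU.sg b.2.2.1 + CU.sg b.2.2.2) / 2 := by
  simp [GHS_e]

lemma GHS_e1 (b : GHS_B) : GHS_e 1 b = -(CU.sg b.1 + CU.sg b.2.1 - CU.sg b.2.2.1 - CU.sg b.2.2.2) / 2 := by
  simp [GHS_e]

lemma GHS_e2 (b : GHS_B) : GHS_e 2 b = (CU.sg b.1 - CU.sg b.2.1 + CU.sg b.2.2.1 - CU.sg b.2.2.2) / 2 := by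
  simp [GHS_e]

lemma GHS_e3 (b : GHS_B) : GHS_e 3 b = (CU.sg b.1 - CU.sg b.2.1 - CU.sg b.2.2.1 + CU.sg b.2.2.2) / 2 := by
  simp [GHS_e]

lemma GHS_sgt : CU.sg true = 1 := by simp [CU.sg]
lemma GHS_sgf : CU.sg false = -1 := by simp [CU.sg]

lemma GHS_num (k : ℕ) : ((-2 : ℝ)) ^ k = (-1) ^ k * 2 ^ k := by
  rw [← mul_pow]; norm_num

lemma GHS_pos (a : Fin 4 → ℕ) : 0 ≤ ∑ b : GHS_B, ∏ i, GHS_e i b ^ a i := by
  simp only [Fin.prod_univ_four, Fintype.sum_prod_type, Fintype.sum_bool, GHS_e0, GHS_e1, GHS_e2, GHS_e3,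
    GHS_sgt, GHS_sgf]
  norm_num
  simp only [GHS_num]
  generalize a 0 = k0
  generalize a 1 = k1
  generalize a 2 = k2
  generalize a 3 = k3
  have hq : ∀ k : ℕ, ((-1 : ℝ)) ^ k = 1 ∨ ((-1 : ℝ)) ^ k = -1 := fun k => neg_one_pow_eq_or ℝ k
  have h0 : 0 ≤ (0 : ℝ) ^ k0 := by positivity
  have h1 : 0 ≤ (0 : ℝ) ^ k1 := by positivity
  have h2 : 0 ≤ (0 : ℝ) ^ k2 := by positivity
  have h3 : 0 ≤ (0 : ℝ) ^ k3 := by positivity
  have p0 : 0 ≤ (2 : ℝ) ^ k0 := by positivity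
  have p1 : 0 ≤ (2 : ℝ) ^ k1 := by positivity
  have p2 : 0 ≤ (2 : ℝ) ^ k2 := by positivity
  have p3 : 0 ≤ (2 : ℝ) ^ k3 := by positivity
  rcases hq k0 with e0 | e0 <;> rcases hq k1 with e1 | e1 <;> rcases hq k2 with e2 | e2 <;>
    rcases hq k3 with e3 | e3 <;> rw [e0, e1, e2, e3] <;> ring_nf <;> positivity

lemma GHS_prod1 {ι : Type} [Fintype ι] [DecidableEq ι] (F : ι → ℝ) (i : ι) (n : ℕ) :
    ∏ j, F j ^ (if j = i then n else 0) = F i ^ n := by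
  rw [Finset.prod_eq_single i]
  · simp
  · intro j _ hj; simp [hj]
  · intro h; exact absurd (Finset.mem_univ i) h

section
variable {V : Type} [Fintype V] [DecidableEq V]

lemma GHS_mon2 (σ : V → GHS_B) (x y : V) (i : Fin 4) :
    ∏ z, ∏ j, GHS_e j (σ z) ^ (if j = i then (if z = x then 1 else 0) + (if z = y then 1 else 0) else 0) =
      GHS_e i (σ x) * GHS_e i (σ y) := by
  have h : ∀ z, ∏ j, GHS_e j (σ z) ^ (if j = i then (if z = x then 1 else 0) + (if z = y then 1 else 0) else 0) =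
      GHS_e i (σ z) ^ (if z = x then 1 else 0) * GHS_e i (σ z) ^ (if z = y then 1 else 0) := by
    intro z
    rw [GHS_prod1 (fun j => GHS_e j (σ z)) i, pow_add]
  rw [Finset.prod_congr rfl fun z _ => h z, Finset.prod_mul_distrib,
    GHS_prod1 (fun z => GHS_e i (σ z)) x 1, GHS_prod1 (fun z => GHS_e i (σ z)) y 1, pow_one, pow_one]

lemma GHS_mon1 (σ : V → GHS_B) (x : V) (i : Fin 4) :
    ∏ z, ∏ j, GHS_e j (σ z) ^ (if j = i then (if z = x then 1 else 0) else 0) = GHS_e i (σ x) := by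
  have h : ∀ z, ∏ j, GHS_e j (σ z) ^ (if j = i then (if z = x then 1 else 0) else 0) =
      GHS_e i (σ z) ^ (if z = x then 1 else 0) := by
    intro z
    rw [GHS_prod1 (fun j => GHS_e j (σ z)) i]
  rw [Finset.prod_congr rfl fun z _ => h z, GHS_prod1 (fun z => GHS_e i (σ z)) x 1, pow_one]

/-- the exponents -/
def GHS_m : ((V × V) × Fin 4) ⊕ (V × Fin 3) → V → Fin 4 → ℕ
  | Sum.inl p => fun z j => if j = p.2 then (if z = p.1.1 then 1 else 0) + (if z = p.1.2 then 1 else 0) else 0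
  | Sum.inr p => fun z j => if j = (![0, 2, 3] : Fin 3 → Fin 4) p.2 then (if z = p.1 then 1 else 0) else 0

omit [Fintype V] [DecidableEq V] in
/-- the coefficients -/
def GHS_c (K : V → V → ℝ) (g a b : V → ℝ) : ((V × V) × Fin 4) ⊕ (V × Fin 3) → ℝ
  | Sum.inl p => K p.1.1 p.1.2
  | Sum.inr p => if p.2 = 0 then 2 * g p.1 + a p.1 + b p.1 else if p.2 = 1 then a p.1 else b p.1

lemma GHS_energy (K : V → V → ℝ) (g a b : V → ℝ) (σ : V → GHS_B) :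
    ∑ j, GHS_c K g a b j * ∏ z, ∏ i, GHS_e i (σ z) ^ GHS_m j z i =
      HH K (fun y => g y + a y + b y) (fun v => (σ v).1) + HH K g (fun v => (σ v).2.1) +
        HH K (fun y => g y + a y) (fun v => (σ v).2.2.1) + HH K (fun y => g y + b y) (fun v => (σ v).2.2.2) := by
  rw [Fintype.sum_sum_type]
  have h1 : ∀ p : (V × V) × Fin 4, GHS_c K g a b (Sum.inl p) * ∏ z, ∏ i, GHS_e i (σ z) ^ GHS_m (Sum.inl p) z i =
      K p.1.1 p.1.2 * (GHS_e p.2 (σ p.1.1) * GHS_e p.2 (σ p.1.2)) := by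
    intro p
    show K p.1.1 p.1.2 * _ = _
    congr 1
    exact GHS_mon2 σ p.1.1 p.1.2 p.2
  have h2 : ∀ p : V × Fin 3, GHS_c K g a b (Sum.inr p) * ∏ z, ∏ i, GHS_e i (σ z) ^ GHS_m (Sum.inr p) z i =
      (if p.2 = 0 then 2 * g p.1 + a p.1 + b p.1 else if p.2 = 1 then a p.1 else b p.1) *
        GHS_e ((![0, 2, 3] : Fin 3 → Fin 4) p.2) (σ p.1) := by
    intro p
    show (if p.2 = 0 then 2 * g p.1 + a p.1 + b p.1 else if p.2 = 1 then a p.1 else b p.1) * _ = _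
    congr 1
    exact GHS_mon1 σ p.1 _
  rw [Finset.sum_congr rfl fun p _ => h1 p, Finset.sum_congr rfl fun p _ => h2 p]
  simp only [Fintype.sum_prod_type, Fin.sum_univ_four]
  unfold CWM.HH
  have h5 : ∀ x : V, ∑ y : Fin 3, (if y = 0 then 2 * g x + a x + b x else if y = 1 then a x else b x) *
      GHS_e ((![0, 2, 3] : Fin 3 → Fin 4) y) (σ x) =
      (g x + a x + b x) * CU.sg (σ x).1 + g x * CU.sg (σ x).2.1 + (g x + a x) * CU.sg (σ x).2.2.1 +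
        (g x + b x) * CU.sg (σ x).2.2.2 := by
    intro x
    rw [Fin.sum_univ_three]
    have a0 : (![0, 2, 3] : Fin 3 → Fin 4) 0 = 0 := rfl
    have a1 : (![0, 2, 3] : Fin 3 → Fin 4) 1 = 2 := rfl
    have a2 : (![0, 2, 3] : Fin 3 → Fin 4) 2 = 3 := rfl
    rw [a0, a1, a2, GHS_e0, GHS_e2, GHS_e3, if_pos rfl, if_neg (by decide), if_pos rfl,
      if_neg (by decide), if_neg (by decide)]
    ring
  rw [Finset.sum_congr rfl fun x _ => h5 x]
  have h4 : ∀ x y : V,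
      K x y * (GHS_e 0 (σ x) * GHS_e 0 (σ y)) + K x y * (GHS_e 1 (σ x) * GHS_e 1 (σ y)) +
      K x y * (GHS_e 2 (σ x) * GHS_e 2 (σ y)) + K x y * (GHS_e 3 (σ x) * GHS_e 3 (σ y)) =
      K x y * (CU.sg (σ x).1 * CU.sg (σ y).1) + K x y * (CU.sg (σ x).2.1 * CU.sg (σ y).2.1) +
        K x y * (CU.sg (σ x).2.2.1 * CU.sg (σ y).2.2.1) + K x y * (CU.sg (σ x).2.2.2 * CU.sg (σ y).2.2.2) := by
    intro x y
    simp only [GHS_e0, GHS_e1, GHS_e2, GHS_e3]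
    ring
  rw [Finset.sum_congr rfl fun x _ => Finset.sum_congr rfl fun y _ => h4 x y]
  simp only [Finset.sum_add_distrib]
  ring

/-- four configurations as one -/
def GHS_eq : (V → GHS_B) ≃ (V → Bool) × (V → Bool) × (V → Bool) × (V → Bool) where
  toFun σ := (fun v => (σ v).1, fun v => (σ v).2.1, fun v => (σ v).2.2.1, fun v => (σ v).2.2.2)
  invFun p := fun v => (p.1 v, p.2.1 v, p.2.2.1 v, p.2.2.2 v)
  left_inv _ := rfl
  right_inv _ := rfl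

lemma GHS_sum (E1 E2 E3 E4 : (V → Bool) → ℝ) :
    ∑ σ : V → GHS_B, E1 (fun v => (σ v).1) * E2 (fun v => (σ v).2.1) * E3 (fun v => (σ v).2.2.1) *
      E4 (fun v => (σ v).2.2.2) = (∑ σ, E1 σ) * (∑ σ, E2 σ) * (∑ σ, E3 σ) * (∑ σ, E4 σ) := by
  rw [← Equiv.sum_comp (GHS_eq (V := V)).symm]
  show ∑ p : (V → Bool) × (V → Bool) × (V → Bool) × (V → Bool), E1 p.1 * E2 p.2.1 * E3 p.2.2.1 * E4 p.2.2.2 = _
  simp only [Fintype.sum_prod_type]
  simp only [← Finset.mul_sum, ← Finset.sum_mul]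

end

theorem GHS (hPL : CWM.PL_stmt) : GHS_stmt := by
  intro V _ _ K g a b hK hg ha hb x
  have h := hPL V GHS_B (((V × V) × Fin 4) ⊕ (V × Fin 3)) 4 GHS_e GHS_pos (GHS_c K g a b) GHS_m ?_
    (fun z j => if j = 1 then (if z = x then 1 else 0) else 0)
  swap
  · rintro (p | p)
    · exact hK _ _
    · show 0 ≤ (if p.2 = 0 then 2 * g p.1 + a p.1 + b p.1 else if p.2 = 1 then a p.1 else b p.1)
      have h1 := hg p.1
      have h2 := ha p.1
      have h3 := hb p.1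
      split_ifs
      · linarith
      · exact h2
      · exact h3
  simp only [GHS_mon1, GHS_energy] at h
  set E1 : (V → Bool) → ℝ := fun σ => Real.exp (HH K (fun y => g y + a y + b y) σ) with hE1
  set E2 : (V → Bool) → ℝ := fun σ => Real.exp (HH K g σ) with hE2
  set E3 : (V → Bool) → ℝ := fun σ => Real.exp (HH K (fun y => g y + a y) σ) with hE3
  set E4 : (V → Bool) → ℝ := fun σ => Real.exp (HH K (fun y => g y + b y) σ) with hE4
  set S : (V → Bool) → ℝ := fun σ => CU.sg (σ x) with hS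
  have h2 : ∀ σ : V → GHS_B, GHS_e 1 (σ x) * Real.exp (HH K (fun y => g y + a y + b y) (fun v => (σ v).1) +
      HH K g (fun v => (σ v).2.1) + HH K (fun y => g y + a y) (fun v => (σ v).2.2.1) +
      HH K (fun y => g y + b y) (fun v => (σ v).2.2.2)) =
      (-1 / 2) * ((E1 (fun v => (σ v).1) * S (fun v => (σ v).1)) * E2 (fun v => (σ v).2.1) *
        E3 (fun v => (σ v).2.2.1) * E4 (fun v => (σ v).2.2.2)) +
      (-1 / 2) * (E1 (fun v => (σ v).1) * (E2 (fun v => (σ v).2.1) * S (fun v => (σ v).2.1)) *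
        E3 (fun v => (σ v).2.2.1) * E4 (fun v => (σ v).2.2.2)) +
      (1 / 2) * (E1 (fun v => (σ v).1) * E2 (fun v => (σ v).2.1) *
        (E3 (fun v => (σ v).2.2.1) * S (fun v => (σ v).2.2.1)) * E4 (fun v => (σ v).2.2.2)) +
      (1 / 2) * (E1 (fun v => (σ v).1) * E2 (fun v => (σ v).2.1) *
        E3 (fun v => (σ v).2.2.1) * (E4 (fun v => (σ v).2.2.2) * S (fun v => (σ v).2.2.2))) := by
    intro σ
    rw [Real.exp_add, Real.exp_add, Real.exp_add, GHS_e1]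
    simp only [hE1, hE2, hE3, hE4, hS]
    ring
  rw [Finset.sum_congr rfl fun σ _ => h2 σ] at h
  simp only [Finset.sum_add_distrib, ← Finset.mul_sum] at h
  rw [GHS_sum (fun σ => E1 σ * S σ) E2 E3 E4, GHS_sum E1 (fun σ => E2 σ * S σ) E3 E4,
    GHS_sum E1 E2 (fun σ => E3 σ * S σ) E4, GHS_sum E1 E2 E3 (fun σ => E4 σ * S σ)] at h
  have p1 : 0 < ∑ σ, E1 σ := Finset.sum_pos (fun σ _ => Real.exp_pos _) Finset.univ_nonempty
  have p2 : 0 < ∑ σ, E2 σ := Finset.sum_pos (fun σ _ => Real.exp_pos _) Finset.univ_nonempty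
  have p3 : 0 < ∑ σ, E3 σ := Finset.sum_pos (fun σ _ => Real.exp_pos _) Finset.univ_nonempty
  have p4 : 0 < ∑ σ, E4 σ := Finset.sum_pos (fun σ _ => Real.exp_pos _) Finset.univ_nonempty
  show (∑ σ, E1 σ * S σ) / (∑ σ, E1 σ) + (∑ σ, E2 σ * S σ) / (∑ σ, E2 σ) ≤
    (∑ σ, E3 σ * S σ) / (∑ σ, E3 σ) + (∑ σ, E4 σ * S σ) / ∑ σ, E4 σ
  set Z1 := ∑ σ, E1 σ
  set Z2 := ∑ σ, E2 σ
  set Z3 := ∑ σ, E3 σ
  set Z4 := ∑ σ, E4 σ
  set A1 := ∑ σ, E1 σ * S σ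
  set A2 := ∑ σ, E2 σ * S σ
  set A3 := ∑ σ, E3 σ * S σ
  set A4 := ∑ σ, E4 σ * S σ
  have e : (A3 / Z3 + A4 / Z4) - (A1 / Z1 + A2 / Z2) =
      (2 / (Z1 * Z2 * Z3 * Z4)) * (-1 / 2 * (A1 * Z2 * Z3 * Z4) + -1 / 2 * (Z1 * A2 * Z3 * Z4) +
        1 / 2 * (Z1 * Z2 * A3 * Z4) + 1 / 2 * (Z1 * Z2 * Z3 * A4)) := by
    field_simp
    ring
  have e2 : 0 ≤ (A3 / Z3 + A4 / Z4) - (A1 / Z1 + A2 / Z2) := by
    rw [e]
    exact mul_nonneg (by positivity) h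
  linarith

end CO
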